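import Pool.Agent.W823.QT.Stm

/-!
# Arcs crossing a vertex
-/

set_option autoImplicit false

namespace Pool.Agent.W356.QTCRS

open Pool.Agent.W823.QT
open scoped ENNReal

theorem sum_cross (ε : ℕ → ℝ≥0∞) (m i : ℕ) :
    ∑ e ∈ (arcs m).filter (fun e => e.1 < i ∧ i < e.2), lw ε e ≤ ∑' k : ℕ, (k : ℝ≥0∞) * ε k := by
  classical
  obtain ⟨F, hF⟩ : ∃ F, F = (arcs m).filter (fun e => e.1 < i ∧ i < e.2) := ⟨_, rfl⟩
  have hFm : ∀ e ∈ F, e.1 < i ∧ i < e.2 ∧ e.2 ≤ m := by
    intro e he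
    rw [hF, Finset.mem_filter] at he
    unfold arcs at he
    rw [Finset.mem_filter, Finset.mem_product, Finset.mem_range, Finset.mem_range] at he
    omega
  rw [← hF, ← Finset.sum_fiberwise_of_maps_to (s := F) (t := Finset.range (m + 1))
    (g := fun e : ℕ × ℕ => e.2 - e.1) (fun e he => by
      have := hFm e he
      rw [Finset.mem_range]
      omega)]
  refine le_trans (Finset.sum_le_sum fun k _ => ?_) (ENNReal.sum_le_tsum (Finset.range (m + 1)))
  have h1 : ∑ e ∈ F.filter (fun e => e.2 - e.1 = k), lw ε e =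
      (((F.filter (fun e : ℕ × ℕ => e.2 - e.1 = k)).card : ℕ) : ℝ≥0∞) * ε k := by
    rw [← nsmul_eq_mul, ← Finset.sum_const]
    refine Finset.sum_congr rfl fun e he => ?_
    rw [Finset.mem_filter] at he
    unfold lw
    rw [he.2]
  have h2 : (F.filter (fun e : ℕ × ℕ => e.2 - e.1 = k)).card ≤ k := by
    have h3 : (F.filter (fun e : ℕ × ℕ => e.2 - e.1 = k)).card ≤ (Finset.Ico (i - k) i).card := by
      refine Finset.card_le_card_of_injOn (fun e => e.1) ?_ ?_
      · intro e he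
        obtain ⟨he1, he2⟩ := Finset.mem_filter.1 (Finset.mem_coe.1 he)
        have := hFm e he1
        rw [Finset.mem_coe, Finset.mem_Ico]
        show i - k ≤ e.1 ∧ e.1 < i
        constructor <;> omega
      · intro e he e' he' h
        have he1 := Finset.mem_filter.1 (Finset.mem_coe.1 he)
        have he2 := Finset.mem_filter.1 (Finset.mem_coe.1 he')
        have := hFm e he1.1
        have := hFm e' he2.1
        simp only at h
        refine Prod.ext h ?_
        omega
    refine h3.trans ?_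
    rw [Nat.card_Ico]
    omega
  rw [h1]
  exact mul_le_mul_left (by exact_mod_cast h2) _

theorem main : CRS_T := by
  classical
  intro ε hε m i
  obtain ⟨F, hF⟩ : ∃ F, F = (arcs m).filter (fun e => e.1 < i ∧ i < e.2) := ⟨_, rfl⟩
  have hs := (sum_cross ε m i).trans hε.2
  rw [← hF] at hs ⊢
  have hfin : ∀ e : ℕ × ℕ, lw ε e ≠ ∞ := fun e => hε.1 _
  obtain ⟨y, hy⟩ : ∃ y : ℕ × ℕ → ℝ, y = fun e => (lw ε e).toReal := ⟨_, rfl⟩
  have hy0 : ∀ e, 0 ≤ y e := fun e => by
    rw [hy]
    exact ENNReal.toReal_nonneg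
  have hye : ∀ e, lw ε e = ENNReal.ofReal (y e) := fun e => by
    rw [hy]
    exact (ENNReal.ofReal_toReal (hfin e)).symm
  have hsum : ∑ e ∈ F, y e ≤ 1 / 8 := by
    have h1 : ENNReal.ofReal (∑ e ∈ F, y e) ≤ ENNReal.ofReal (1 / 8) := by
      rw [ENNReal.ofReal_sum_of_nonneg fun e _ => hy0 e]
      rw [Finset.sum_congr rfl fun e _ => (hye e).symm]
      refine hs.trans (le_of_eq ?_)
      rw [ENNReal.ofReal_div_of_pos (by norm_num)]
      simp
    exact (ENNReal.ofReal_le_ofReal_iff (by norm_num)).1 h1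
  have hprod : ∏ e ∈ F, (1 + lw ε e) = ENNReal.ofReal (∏ e ∈ F, (1 + y e)) := by
    rw [ENNReal.ofReal_prod_of_nonneg fun e _ => by have := hy0 e; linarith]
    refine Finset.prod_congr rfl fun e _ => ?_
    rw [ENNReal.ofReal_add zero_le_one (hy0 e), ENNReal.ofReal_one, hye]
  have hreal : ∏ e ∈ F, (1 + y e) ≤ 8 / 7 := by
    have h1 : ∏ e ∈ F, (1 + y e) ≤ ∏ e ∈ F, Real.exp (y e) := by
      refine Finset.prod_le_prod (fun e _ => by have := hy0 e; linarith) fun e _ => ?_
      have := Real.add_one_le_exp (y e)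
      linarith
    rw [← Real.exp_sum] at h1
    have h2 : Real.exp (∑ e ∈ F, y e) ≤ Real.exp (1 / 8) := Real.exp_le_exp.2 hsum
    have h3 : Real.exp (1 / 8) ≤ 1 / (1 - 1 / 8) :=
      Real.exp_bound_div_one_sub_of_interval (by norm_num) (by norm_num)
    have h4 : (1 : ℝ) / (1 - 1 / 8) = 8 / 7 := by norm_num
    linarith
  rw [hprod]
  have h5 : ENNReal.ofReal (8 / 7) = 8 / 7 := by
    rw [ENNReal.ofReal_div_of_pos (by norm_num)]
    simp
  rw [← h5]
  exact ENNReal.ofReal_le_ofReal hreal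

end Pool.Agent.W356.QTCRS
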