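import Pool.Agent.W823.QT.Stm

/-!
# Marginals of the independent arcs
-/

set_option autoImplicit false

namespace Pool.Agent.W356.QTMARG

open Pool.Agent.W823.QT
open scoped ENNReal

theorem sum_split (w : ℕ × ℕ → ℝ≥0∞) (f : Finset (ℕ × ℕ) → ℝ≥0∞) (E : Finset (ℕ × ℕ))
    (R : Finset (ℕ × ℕ)) (h : Disjoint E R) :
    ∑ S ∈ (E ∪ R).powerset, (∏ e ∈ S, w e) * f (S ∩ E) =
      (∑ S ∈ E.powerset, (∏ e ∈ S, w e) * f S) * ∏ e ∈ R, (1 + w e) := by
  classical
  induction R using Finset.induction_on with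
  | empty =>
    rw [Finset.union_empty, Finset.prod_empty, mul_one]
    refine Finset.sum_congr rfl fun S hS => ?_
    rw [Finset.inter_eq_left.2 (Finset.mem_powerset.1 hS)]
  | insert r R hr ih =>
    rw [Finset.disjoint_insert_right] at h
    have hrU : r ∉ E ∪ R := by
      rw [Finset.mem_union, not_or]
      exact ⟨h.1, hr⟩
    rw [Finset.union_insert, Finset.sum_powerset_insert hrU, ih h.2, Finset.prod_insert hr]
    have h1 : ∑ S ∈ (E ∪ R).powerset, (∏ e ∈ insert r S, w e) * f (insert r S ∩ E) =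
        w r * ∑ S ∈ (E ∪ R).powerset, (∏ e ∈ S, w e) * f (S ∩ E) := by
      rw [Finset.mul_sum]
      refine Finset.sum_congr rfl fun S hS => ?_
      have hrS : r ∉ S := fun h' => hrU (Finset.mem_powerset.1 hS h')
      rw [Finset.prod_insert hrS, Finset.insert_inter_of_notMem h.1, mul_assoc]
    rw [h1, ih h.2]
    ring

theorem main : MARG_T := by
  classical
  intro ε hε i N hiN f
  have hsub : arcs i ⊆ arcs N := by
    intro e he
    unfold arcs at he ⊢
    rw [Finset.mem_filter, Finset.mem_product, Finset.mem_range, Finset.mem_range] at he ⊢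
    omega
  obtain ⟨R, hR⟩ : ∃ R, R = arcs N \ arcs i := ⟨_, rfl⟩
  have hU : arcs i ∪ R = arcs N := by
    rw [hR]
    exact Finset.union_sdiff_of_subset hsub
  have hD : Disjoint (arcs i) R := by
    rw [hR]
    exact Finset.disjoint_sdiff
  have h0 : ∏ e ∈ R, (1 + lw ε e) ≠ 0 := by
    refine Finset.prod_ne_zero_iff.2 fun e _ => ?_
    simp
  have h1 : ∏ e ∈ R, (1 + lw ε e) ≠ ∞ := by
    refine ENNReal.prod_ne_top fun e _ => ?_
    exact ENNReal.add_ne_top.2 ⟨ENNReal.one_ne_top, hε _⟩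
  unfold EE wsum
  rw [← hU, sum_split (lw ε) f (arcs i) R hD, Finset.prod_union hD,
    ENNReal.mul_div_mul_right _ _ h0 h1]

end Pool.Agent.W356.QTMARG
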