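import Pool.Agent.W213.MG.Stm

set_option autoImplicit false

/-! MG-QUO: left quotients of the language correspond to the reachable sets. -/

namespace Pool.Agent.W356.MG

open Pool.Agent.W213.MG

/-- one step on subsets -/
def stp (n : ℕ) (f : ℕ → Bool) (S : Finset ℕ) (x : Fin 2) : Finset ℕ :=
  if x = 0 then A n S else B n f S

/-- reading a word -/
def run (n : ℕ) (f : ℕ → Bool) (S : Finset ℕ) (w : List (Fin 2)) : Finset ℕ :=
  w.foldl (stp n f) S

/-- a set of states from a set of numbers -/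
def toS (n : ℕ) (S : Finset ℕ) : Set (Fin n) := {j | j.val ∈ S}

theorem stp_sub (n : ℕ) (f : ℕ → Bool) (hn : 2 ≤ n) (S : Finset ℕ) (x : Fin 2) :
    stp n f S x ⊆ Finset.range n := by
  intro j hj
  rw [Finset.mem_range]
  unfold stp at hj
  split_ifs at hj
  · rw [mem_A] at hj
    exact hj.1
  · rw [mem_B] at hj
    rcases hj with h | h | h
    · exact h.1
    · omega
    · omega

theorem run_sub (n : ℕ) (f : ℕ → Bool) (hn : 2 ≤ n) (w : List (Fin 2)) :
    ∀ S : Finset ℕ, S ⊆ Finset.range n → run n f S w ⊆ Finset.range n := by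
  induction w with
  | nil => intro S hS; exact hS
  | cons x w ih =>
    intro S hS
    exact ih _ (stp_sub n f hn S x)

theorem stepSet_toS (n : ℕ) (f : ℕ → Bool) (S : Finset ℕ) (hS : S ⊆ Finset.range n)
    (x : Fin 2) : (M n f).stepSet (toS n S) x = toS n (stp n f S x) := by
  have hS' : ∀ i ∈ S, i < n := fun i hi => Finset.mem_range.1 (hS hi)
  ext j
  rw [NFA.mem_stepSet]
  show (∃ t : Fin n, t.val ∈ S ∧ j ∈ (M n f).step t x) ↔ j.val ∈ stp n f S x
  unfold stp
  by_cases hx : x = 0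
  · have e : ∀ t : Fin n, j ∈ (M n f).step t x ↔ j.val = t.val + 1 := by
      intro t
      show j ∈ (if x = 0 then _ else _) ↔ _
      rw [if_pos hx]
      exact Iff.rfl
    rw [if_pos hx, mem_A]
    constructor
    · rintro ⟨t, ht, h⟩
      exact ⟨j.isLt, t.val, ht, ((e t).1 h).symm⟩
    · rintro ⟨_, i, hi, h⟩
      exact ⟨⟨i, hS' i hi⟩, hi, (e _).2 h.symm⟩
  · have e : ∀ t : Fin n, j ∈ (M n f).step t x ↔ (j.val = t.val + 1 ∨
        (t.val = n - 1 ∧ j.val = n - 1) ∨
        (j.val = 0 ∧ (t.val = 0 ∨ t.val = n - 1 ∨ f t.val = true))) := by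
      intro t
      show j ∈ (if x = 0 then _ else _) ↔ _
      rw [if_neg hx]
      exact Iff.rfl
    rw [if_neg hx, mem_B]
    constructor
    · rintro ⟨t, ht, h⟩
      rcases (e t).1 h with h | h | h
      · exact Or.inl ⟨j.isLt, t.val, ht, h.symm⟩
      · exact Or.inr (Or.inl ⟨h.2, h.1 ▸ ht⟩)
      · exact Or.inr (Or.inr ⟨h.1, t.val, ht, h.2⟩)
    · rintro (⟨_, i, hi, h⟩ | ⟨h1, h2⟩ | ⟨h1, i, hi, h2⟩)
      · exact ⟨⟨i, hS' i hi⟩, hi, (e _).2 (Or.inl h.symm)⟩
      · exact ⟨⟨n - 1, hS' _ h2⟩, h2, (e _).2 (Or.inr (Or.inl ⟨rfl, h1⟩))⟩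
      · exact ⟨⟨i, hS' i hi⟩, hi, (e _).2 (Or.inr (Or.inr ⟨h1, h2⟩))⟩

theorem evalFrom_toS (n : ℕ) (f : ℕ → Bool) (hn : 2 ≤ n) (w : List (Fin 2)) :
    ∀ S : Finset ℕ, S ⊆ Finset.range n →
      (M n f).evalFrom (toS n S) w = toS n (run n f S w) := by
  induction w with
  | nil => intro S _; rfl
  | cons x w ih =>
    intro S hS
    have h1 : (M n f).evalFrom (toS n S) (x :: w) =
      (M n f).evalFrom ((M n f).stepSet (toS n S) x) w := rfl
    rw [h1, stepSet_toS n f S hS x, ih _ (stp_sub n f hn S x)]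
    rfl

theorem zero_sub (n : ℕ) (hn : 2 ≤ n) : ({0} : Finset ℕ) ⊆ Finset.range n := by
  intro j hj
  rw [Finset.mem_singleton] at hj
  rw [Finset.mem_range]
  omega

theorem mem_acc (n : ℕ) (f : ℕ → Bool) (hn : 2 ≤ n) (w : List (Fin 2)) :
    w ∈ (M n f).accepts ↔ n - 1 ∈ run n f {0} w := by
  rw [NFA.mem_accepts]
  have h0 : (M n f).start = toS n {0} := by
    ext j
    show j.val = 0 ↔ j.val ∈ ({0} : Finset ℕ)
    rw [Finset.mem_singleton]
  rw [h0, evalFrom_toS n f hn w _ (zero_sub n hn)]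
  constructor
  · rintro ⟨s, hs, h⟩
    have hs' : s.val = n - 1 := hs
    have h' : s.val ∈ run n f {0} w := h
    rwa [hs'] at h'
  · intro h
    exact ⟨⟨n - 1, by omega⟩, rfl, h⟩

theorem run_append (n : ℕ) (f : ℕ → Bool) (S : Finset ℕ) (u w : List (Fin 2)) :
    run n f S (u ++ w) = run n f (run n f S u) w := List.foldl_append

theorem reach_run (n : ℕ) (f : ℕ → Bool) (w : List (Fin 2)) :
    ∀ S : Finset ℕ, Reach n f S → Reach n f (run n f S w) := by
  induction w with
  | nil => intro S hS; exact hS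
  | cons x w ih =>
    intro S hS
    apply ih
    unfold stp
    split_ifs
    · exact Reach.a S hS
    · exact Reach.b S hS

theorem reach_iff (n : ℕ) (f : ℕ → Bool) (S : Finset ℕ) :
    Reach n f S ↔ ∃ w, run n f {0} w = S := by
  constructor
  · intro h
    induction h with
    | start => exact ⟨[], rfl⟩
    | a S _ ih =>
      obtain ⟨w, hw⟩ := ih
      exact ⟨w ++ [0], by rw [run_append, hw]; rfl⟩
    | b S _ ih =>
      obtain ⟨w, hw⟩ := ih
      exact ⟨w ++ [1], by rw [run_append, hw]; rfl⟩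
  · rintro ⟨w, rfl⟩
    exact reach_run n f w _ Reach.start

theorem run_rep (n : ℕ) (f : ℕ → Bool) (k : ℕ) : ∀ (S : Finset ℕ) (j : ℕ), j < n →
    (S ⊆ Finset.range n) → (j ∈ run n f S (List.replicate k 0) ↔ ∃ i ∈ S, i + k = j) := by
  induction k with
  | zero =>
    intro S j _ _
    show j ∈ S ↔ _
    constructor
    · intro h; exact ⟨j, h, rfl⟩
    · rintro ⟨i, hi, h⟩
      have : i = j := by omega
      exact this ▸ hi
  | succ k ih =>
    intro S j hj hS
    have hA : A n S ⊆ Finset.range n := by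
      intro i hi
      rw [mem_A] at hi
      exact Finset.mem_range.2 hi.1
    have h1 : run n f S (List.replicate (k + 1) 0) = run n f (A n S) (List.replicate k 0) := rfl
    rw [h1, ih _ j hj hA]
    constructor
    · rintro ⟨i, hi, h⟩
      rw [mem_A] at hi
      obtain ⟨_, i', hi', h'⟩ := hi
      exact ⟨i', hi', by omega⟩
    · rintro ⟨i, hi, h⟩
      refine ⟨i + 1, ?_, by omega⟩
      rw [mem_A]
      exact ⟨by omega, i, hi, rfl⟩

/-- the language of a set -/
def lang (n : ℕ) (f : ℕ → Bool) (S : Finset ℕ) : Set (List (Fin 2)) := {w | n - 1 ∈ run n f S w}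

theorem lang_sub (n : ℕ) (f : ℕ → Bool) (hn : 2 ≤ n) (S T : Finset ℕ) (hS : S ⊆ Finset.range n)
    (hT : T ⊆ Finset.range n) (h : lang n f S = lang n f T) : S ⊆ T := by
  intro i hi
  have hin : i < n := Finset.mem_range.1 (hS hi)
  have h1 : List.replicate (n - 1 - i) 0 ∈ lang n f S :=
    (run_rep n f (n - 1 - i) S (n - 1) (by omega) hS).2 ⟨i, hi, by omega⟩
  rw [h] at h1
  obtain ⟨j, hj, hj2⟩ := (run_rep n f (n - 1 - i) T (n - 1) (by omega) hT).1 h1
  have : j = i := by omega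
  exact this ▸ hj

theorem main : QUO := by
  intro n f R hn hR
  have hRs : ∀ S ∈ R, S ⊆ Finset.range n := by
    intro S hS
    obtain ⟨w, rfl⟩ := (reach_iff n f S).1 ((hR S).1 hS)
    exact run_sub n f hn w _ (zero_sub n hn)
  have h1 : Set.range (fun u : List (Fin 2) =>
      ({w : List (Fin 2) | u ++ w ∈ (M n f).accepts} : Set (List (Fin 2)))) =
      lang n f '' (R : Set (Finset ℕ)) := by
    have h2 : ∀ u : List (Fin 2),
        ({w : List (Fin 2) | u ++ w ∈ (M n f).accepts} : Set (List (Fin 2))) =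
        lang n f (run n f {0} u) := by
      intro u
      ext w
      show u ++ w ∈ (M n f).accepts ↔ n - 1 ∈ run n f (run n f {0} u) w
      rw [mem_acc n f hn, run_append]
    ext L
    constructor
    · rintro ⟨u, rfl⟩
      refine ⟨run n f {0} u, ?_, (h2 u).symm⟩
      exact (hR _).2 ((reach_iff n f _).2 ⟨u, rfl⟩)
    · rintro ⟨S, hS, rfl⟩
      obtain ⟨u, rfl⟩ := (reach_iff n f S).1 ((hR S).1 hS)
      exact ⟨u, h2 u⟩
  rw [h1, Nat.card_coe_set_eq, Set.ncard_image_of_injOn, Set.ncard_coe_finset]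
  intro S hS T hT h
  exact Finset.Subset.antisymm (lang_sub n f hn S T (hRs S hS) (hRs T hT) h)
    (lang_sub n f hn T S (hRs T hT) (hRs S hS) h.symm)

end Pool.Agent.W356.MG
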